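import Mathlib

set_option autoImplicit false

/-!
# Project SN (MP_b31059): the general Hall lemma for linked matchings

`α`, `α'` are two copies of a level, `β`, `β'` two copies of the next level (up to deleted points),
`R a`, `R' a'` the upper neighbours, `Y ⊆ β` the set of linked elements, `π : β → β'` the linking.
We look for injections `F : α → β`, `G : α' → β'` along the neighbour relation such that
`y ∈ range F ↔ π y ∈ range G` for `y ∈ Y`, and such that at most `|Y| - r` links are used.

* Griggs step (MR) and its punctured form (step (1) of SN): `Y = univ`, `r = 0`;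
* killing step (step (2) of SN): `Y` arbitrary, `r` = number of killed links.

PROOF. One perfect matching (Hall) of the bipartite graph with left side
`α + Y + (β' \ π Y) + Fin q`, right side `β + α' + Fin q`, `q = |β| - |α| - r`.
-/

namespace Pool.Agent.Helper30.SN

open Finset

variable {α α' β β' : Type*} [Fintype α] [Fintype α'] [Fintype β] [Fintype β']
  [DecidableEq α] [DecidableEq α'] [DecidableEq β] [DecidableEq β']

/-- neighbourhood of a set -/
def nbr {γ δ : Type*} [DecidableEq δ] (R : γ → Finset δ) (A : Finset γ) : Finset δ := A.biUnion R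

/-- the set of lower neighbours -/
def lwr {γ δ : Type*} [Fintype γ] [DecidableEq δ] (R : γ → Finset δ) (D : Finset δ) : Finset γ :=
  univ.filter fun a => (R a ∩ D).Nonempty

/-- the number of links between the neighbourhoods of `A` and `A'` -/
def both (R : α → Finset β) (R' : α' → Finset β') (Y : Finset β) (π : β → β')
    (A : Finset α) (A' : Finset α') : ℕ :=
  (Y.filter fun y => y ∈ nbr R A ∧ π y ∈ nbr R' A').card

namespace LinkAux

/-- the left side -/
abbrev Lf (α : Type*) {β β' : Type*} [DecidableEq β'] (Y : Finset β) (π : β → β') (q : ℕ) : Type _ :=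
  α ⊕ ({y // y ∈ Y} ⊕ ({z : β' // z ∉ Y.image π} ⊕ Fin q))

/-- the right side -/
abbrev Rt (β α' : Type*) (q : ℕ) : Type _ := β ⊕ (α' ⊕ Fin q)

/-- the neighbourhoods -/
def nb (R : α → Finset β) (R' : α' → Finset β') (Y : Finset β) (π : β → β') (q : ℕ) :
    Lf α Y π q → Finset (Rt β α' q)
  | Sum.inl a => (R a).image Sum.inl
  | Sum.inr (Sum.inl y) =>
      insert (Sum.inl y.1) ((univ.filter fun a' => π y.1 ∈ R' a').image fun a' => Sum.inr (Sum.inl a'))
  | Sum.inr (Sum.inr (Sum.inl z)) =>
      ((univ.filter fun a' => z.1 ∈ R' a').image fun a' => Sum.inr (Sum.inl a')) ∪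
        univ.image fun i => Sum.inr (Sum.inr i)
  | Sum.inr (Sum.inr (Sum.inr _)) =>
      ((univ \ Y).image Sum.inl) ∪ univ.image fun i => Sum.inr (Sum.inr i)

theorem hall (R : α → Finset β) (R' : α' → Finset β')
    (hα : Fintype.card α = Fintype.card α') (hβ : Fintype.card β = Fintype.card β')
    (Y : Finset β) (π : β → β') (hπ : Set.InjOn π (Y : Set β)) (r q : ℕ)
    (hq : Fintype.card α + r + q = Fintype.card β)
    (ha : ∀ (A : Finset α) (A' : Finset α'), A.card + A'.card ≤
      Fintype.card α + (nbr R A \ Y).card + both R R' Y π A A')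
    (hb : ∀ (A : Finset α) (A' : Finset α'), A.card + A'.card ≤
      Fintype.card α + (nbr R' A' \ Y.image π).card + both R R' Y π A A')
    (hc : ∀ (A : Finset α) (A' : Finset α'), r + A.card + A'.card ≤
      Y.card + (nbr R A \ Y).card + (nbr R' A' \ Y.image π).card + both R R' Y π A A')
    (s : Finset (Lf α Y π q)) : s.card ≤ (s.biUnion (nb R R' Y π q)).card := by
  classical
  set A : Finset α := s.toLeft with hA
  set T : Finset β := s.toRight.toLeft.map (Function.Embedding.subtype _) with hT
  set B : Finset β' := s.toRight.toRight.toLeft.map (Function.Embedding.subtype _) with hB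
  set C : Finset (Fin q) := s.toRight.toRight.toRight with hC
  have hcard : s.card = A.card + T.card + B.card + C.card := by
    have h1 := card_toLeft_add_card_toRight (u := s)
    have h2 := card_toLeft_add_card_toRight (u := s.toRight)
    have h3 := card_toLeft_add_card_toRight (u := s.toRight.toRight)
    rw [hT, hB, hA, hC, card_map, card_map]
    omega
  have memT : ∀ y, y ∈ T ↔ ∃ h : y ∈ Y, (Sum.inr (Sum.inl ⟨y, h⟩) : Lf α Y π q) ∈ s := by
    intro y
    rw [hT, mem_map]
    constructor
    · rintro ⟨w, hw, rfl⟩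
      exact ⟨w.2, by simpa using hw⟩
    · rintro ⟨h, hw⟩
      exact ⟨⟨y, h⟩, by simpa using hw, rfl⟩
  have memB : ∀ z, z ∈ B ↔ ∃ h : z ∉ Y.image π,
      (Sum.inr (Sum.inr (Sum.inl ⟨z, h⟩)) : Lf α Y π q) ∈ s := by
    intro z
    rw [hB, mem_map]
    constructor
    · rintro ⟨w, hw, rfl⟩
      exact ⟨w.2, by simpa using hw⟩
    · rintro ⟨h, hw⟩
      exact ⟨⟨z, h⟩, by simpa using hw, rfl⟩
  have hTY : T ⊆ Y := fun y hy => ((memT y).1 hy).1
  have hBY : ∀ z ∈ B, z ∉ Y.image π := fun z hz => ((memB z).1 hz).1
  -- the lower neighbours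
  set LO : Finset α' := univ.filter fun a' => ∃ z ∈ T.image π ∪ B, z ∈ R' a' with hLO
  set A' : Finset α' := univ \ LO with hA'
  have hA'c : A'.card + LO.card = Fintype.card α' := by
    rw [hA', card_sdiff_add_card_eq_card (subset_univ _), card_univ]
  have hA'n : ∀ z ∈ nbr R' A', z ∉ T.image π ∪ B := by
    intro z hz hz'
    obtain ⟨a', ha', hza⟩ := mem_biUnion.1 hz
    rw [hA', mem_sdiff, hLO, mem_filter] at ha'
    exact ha'.2 ⟨mem_univ _, z, hz', hza⟩
  have h1 : both R R' Y π A A' ≤ ((Y ∩ nbr R A) \ T).card := by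
    apply card_le_card
    intro y hy
    rw [mem_filter] at hy
    rw [mem_sdiff, mem_inter]
    refine ⟨⟨hy.1, hy.2.1⟩, fun hyT => hA'n _ hy.2.2 ?_⟩
    exact mem_union_left _ (mem_image_of_mem _ hyT)
  have h2 : (nbr R A \ Y).card + ((Y ∩ nbr R A) \ T).card + T.card ≤ (nbr R A ∪ T).card := by
    have e1 : Disjoint (nbr R A \ Y) ((Y ∩ nbr R A) \ T) := by
      rw [Finset.disjoint_left]
      intro y hy hy'
      rw [mem_sdiff] at hy
      rw [mem_sdiff, mem_inter] at hy'
      exact hy.2 hy'.1.1
    have e2 : Disjoint ((nbr R A \ Y) ∪ ((Y ∩ nbr R A) \ T)) T := by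
      rw [Finset.disjoint_left]
      intro y hy hy'
      rw [mem_union, mem_sdiff, mem_sdiff] at hy
      rcases hy with hy | hy
      · exact hy.2 (hTY hy')
      · exact hy.2 hy'
    rw [← card_union_of_disjoint e1, ← card_union_of_disjoint e2]
    apply card_le_card
    intro y hy
    rw [mem_union, mem_union, mem_sdiff, mem_sdiff, mem_inter] at hy
    rw [mem_union]
    rcases hy with (hy | hy) | hy
    · exact Or.inl hy.1
    · exact Or.inl hy.1.2
    · exact Or.inr hy
  have h3 : (nbr R' A' \ Y.image π).card + B.card + Y.card ≤ Fintype.card β' := by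
    have e1 : Disjoint (nbr R' A' \ Y.image π) B := by
      rw [Finset.disjoint_left]
      intro z hz hz'
      rw [mem_sdiff] at hz
      exact hA'n z hz.1 (mem_union_right _ hz')
    have e2 : Disjoint ((nbr R' A' \ Y.image π) ∪ B) (Y.image π) := by
      rw [Finset.disjoint_left]
      intro z hz hz'
      rw [mem_union, mem_sdiff] at hz
      rcases hz with hz | hz
      · exact hz.2 hz'
      · exact hBY z hz hz'
    have e3 : (Y.image π).card = Y.card := card_image_of_injOn hπ
    rw [← e3, ← card_union_of_disjoint e1, ← card_union_of_disjoint e2]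
    exact card_le_univ _
  -- subsets of the neighbourhood
  have hsub1 : ((nbr R A ∪ T).image (Sum.inl : β → Rt β α' q)) ∪
      (LO.image fun a' => (Sum.inr (Sum.inl a') : Rt β α' q)) ⊆ s.biUnion (nb R R' Y π q) := by
    intro x hx
    rw [mem_biUnion]
    rw [mem_union, mem_image, mem_image] at hx
    rcases hx with ⟨y, hy, rfl⟩ | ⟨a', ha', rfl⟩
    · rw [mem_union] at hy
      rcases hy with hy | hy
      · obtain ⟨a, haA, hya⟩ := mem_biUnion.1 hy
        exact ⟨Sum.inl a, mem_toLeft.1 haA, mem_image_of_mem _ hya⟩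
      · obtain ⟨h, hw⟩ := (memT y).1 hy
        exact ⟨_, hw, mem_insert_self _ _⟩
    · rw [hLO, mem_filter] at ha'
      obtain ⟨_, z, hz, hza⟩ := ha'
      rw [mem_union, mem_image] at hz
      rcases hz with ⟨y, hy, rfl⟩ | hz
      · obtain ⟨h, hw⟩ := (memT y).1 hy
        refine ⟨_, hw, mem_insert_of_mem ?_⟩
        exact mem_image.2 ⟨a', mem_filter.2 ⟨mem_univ _, hza⟩, rfl⟩
      · obtain ⟨h, hw⟩ := (memB z).1 hz
        refine ⟨_, hw, mem_union_left _ ?_⟩
        exact mem_image.2 ⟨a', mem_filter.2 ⟨mem_univ _, hza⟩, rfl⟩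
  have hdis1 : Disjoint ((nbr R A ∪ T).image (Sum.inl : β → Rt β α' q))
      (LO.image fun a' => (Sum.inr (Sum.inl a') : Rt β α' q)) := by
    rw [Finset.disjoint_left]
    intro x hx hx'
    obtain ⟨y, _, rfl⟩ := mem_image.1 hx
    obtain ⟨a', _, h⟩ := mem_image.1 hx'
    simp at h
  have hc1 : ((nbr R A ∪ T).image (Sum.inl : β → Rt β α' q)).card = (nbr R A ∪ T).card :=
    card_image_of_injective _ Sum.inl_injective
  have hc2 : (LO.image fun a' => (Sum.inr (Sum.inl a') : Rt β α' q)).card = LO.card :=
    card_image_of_injective _ fun a b h => by simpa using h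
  have hc3 : ((univ : Finset (Fin q)).image fun i => (Sum.inr (Sum.inr i) : Rt β α' q)).card = q := by
    rw [card_image_of_injective _ fun a b h => by simpa using h, card_univ, Fintype.card_fin]
  have hCq : C.card ≤ q := by
    simpa using card_le_univ C
  have key : (nbr R A ∪ T).card + LO.card ≤ (s.biUnion (nb R R' Y π q)).card := by
    rw [← hc1, ← hc2, ← card_union_of_disjoint hdis1]
    exact card_le_card hsub1
  rcases C.eq_empty_or_nonempty with hC0 | ⟨i0, hi0⟩
  · rcases B.eq_empty_or_nonempty with hB0 | ⟨z0, hz0⟩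
    · -- both empty
      have e1 : B.card = 0 := by rw [hB0, card_empty]
      have e2 : C.card = 0 := by rw [hC0, card_empty]
      have e3 := ha A A'
      omega
    · -- `B` nonempty
      have hsub2 : (((nbr R A ∪ T).image (Sum.inl : β → Rt β α' q)) ∪
          (LO.image fun a' => (Sum.inr (Sum.inl a') : Rt β α' q))) ∪
          ((univ : Finset (Fin q)).image fun i => (Sum.inr (Sum.inr i) : Rt β α' q)) ⊆
          s.biUnion (nb R R' Y π q) := by
        refine union_subset hsub1 ?_
        intro x hx
        obtain ⟨h, hw⟩ := (memB z0).1 hz0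
        exact mem_biUnion.2 ⟨_, hw, mem_union_right _ hx⟩
      have hdis2 : Disjoint (((nbr R A ∪ T).image (Sum.inl : β → Rt β α' q)) ∪
          (LO.image fun a' => (Sum.inr (Sum.inl a') : Rt β α' q)))
          ((univ : Finset (Fin q)).image fun i => (Sum.inr (Sum.inr i) : Rt β α' q)) := by
        rw [Finset.disjoint_left]
        intro x hx hx'
        obtain ⟨i, _, rfl⟩ := mem_image.1 hx'
        rw [mem_union, mem_image, mem_image] at hx
        rcases hx with ⟨y, _, h⟩ | ⟨a', _, h⟩
        · simp at h
        · simp at h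
      have k2 : (nbr R A ∪ T).card + LO.card + q ≤ (s.biUnion (nb R R' Y π q)).card := by
        have h := card_le_card hsub2
        rw [card_union_of_disjoint hdis2, card_union_of_disjoint hdis1, hc1, hc2, hc3] at h
        exact h
      have e2 : C.card = 0 := by rw [hC0, card_empty]
      have e3 := hc A A'
      omega
  · -- `C` nonempty
    have hw0 : (Sum.inr (Sum.inr (Sum.inr i0)) : Lf α Y π q) ∈ s := by
      simpa [hC] using hi0
    have hsub2 : (((T ∪ (nbr R A ∩ Y) ∪ (univ \ Y)).image (Sum.inl : β → Rt β α' q)) ∪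
        (LO.image fun a' => (Sum.inr (Sum.inl a') : Rt β α' q))) ∪
        ((univ : Finset (Fin q)).image fun i => (Sum.inr (Sum.inr i) : Rt β α' q)) ⊆
        s.biUnion (nb R R' Y π q) := by
      refine union_subset (union_subset ?_ ?_) ?_
      · intro x hx
        obtain ⟨y, hy, rfl⟩ := mem_image.1 hx
        rw [mem_union] at hy
        rcases hy with hy | hy
        · apply hsub1
          apply mem_union_left
          apply mem_image_of_mem
          rw [mem_union, mem_inter] at hy
          rw [mem_union]
          rcases hy with hy | hy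
          · exact Or.inr hy
          · exact Or.inl hy.1
        · exact mem_biUnion.2 ⟨_, hw0, mem_union_left _ (mem_image_of_mem _ hy)⟩
      · exact fun x hx => hsub1 (mem_union_right _ hx)
      · intro x hx
        exact mem_biUnion.2 ⟨_, hw0, mem_union_right _ hx⟩
    have hdis1' : Disjoint ((T ∪ (nbr R A ∩ Y) ∪ (univ \ Y)).image (Sum.inl : β → Rt β α' q))
        (LO.image fun a' => (Sum.inr (Sum.inl a') : Rt β α' q)) := by
      rw [Finset.disjoint_left]
      intro x hx hx'
      obtain ⟨y, _, rfl⟩ := mem_image.1 hx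
      obtain ⟨a', _, h⟩ := mem_image.1 hx'
      simp at h
    have hdis2 : Disjoint (((T ∪ (nbr R A ∩ Y) ∪ (univ \ Y)).image (Sum.inl : β → Rt β α' q)) ∪
        (LO.image fun a' => (Sum.inr (Sum.inl a') : Rt β α' q)))
        ((univ : Finset (Fin q)).image fun i => (Sum.inr (Sum.inr i) : Rt β α' q)) := by
      rw [Finset.disjoint_left]
      intro x hx hx'
      obtain ⟨i, _, rfl⟩ := mem_image.1 hx'
      rw [mem_union, mem_image, mem_image] at hx
      rcases hx with ⟨y, _, h⟩ | ⟨a', _, h⟩
      · simp at h
      · simp at h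
    have hc1' : ((T ∪ (nbr R A ∩ Y) ∪ (univ \ Y)).image (Sum.inl : β → Rt β α' q)).card =
        (T ∪ (nbr R A ∩ Y) ∪ (univ \ Y)).card := card_image_of_injective _ Sum.inl_injective
    have k2 : (T ∪ (nbr R A ∩ Y) ∪ (univ \ Y)).card + LO.card + q ≤
        (s.biUnion (nb R R' Y π q)).card := by
      have h := card_le_card hsub2
      rw [card_union_of_disjoint hdis2, card_union_of_disjoint hdis1', hc1', hc2, hc3] at h
      exact h
    have k3 : T.card + ((Y ∩ nbr R A) \ T).card + (univ \ Y).card ≤
        (T ∪ (nbr R A ∩ Y) ∪ (univ \ Y)).card := by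
      have e1 : Disjoint T ((Y ∩ nbr R A) \ T) := disjoint_sdiff
      have e2 : Disjoint (T ∪ ((Y ∩ nbr R A) \ T)) (univ \ Y) := by
        rw [Finset.disjoint_left]
        intro y hy hy'
        rw [mem_union, mem_sdiff, mem_inter] at hy
        rw [mem_sdiff] at hy'
        rcases hy with hy | hy
        · exact hy'.2 (hTY hy)
        · exact hy'.2 hy.1.1
      rw [← card_union_of_disjoint e1, ← card_union_of_disjoint e2]
      apply card_le_card
      intro y hy
      rw [mem_union, mem_union, mem_sdiff, mem_inter] at hy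
      rw [mem_union, mem_union, mem_inter]
      rcases hy with (hy | hy) | hy
      · exact Or.inl (Or.inl hy)
      · exact Or.inl (Or.inr ⟨hy.1.2, hy.1.1⟩)
      · exact Or.inr hy
    have k4 : (univ \ Y).card + Y.card = Fintype.card β := by
      rw [card_sdiff_add_card_eq_card (subset_univ _), card_univ]
    have e3 := hb A A'
    omega

end LinkAux

open LinkAux in
/-- The general lemma: linked injections with a budget. -/
theorem link (R : α → Finset β) (R' : α' → Finset β')
    (hα : Fintype.card α = Fintype.card α') (hβ : Fintype.card β = Fintype.card β')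
    (Y : Finset β) (π : β → β') (hπ : Set.InjOn π (Y : Set β)) (r : ℕ)
    (ha : ∀ (A : Finset α) (A' : Finset α'), A.card + A'.card ≤
      Fintype.card α + (nbr R A \ Y).card + both R R' Y π A A')
    (hb : ∀ (A : Finset α) (A' : Finset α'), A.card + A'.card ≤
      Fintype.card α + (nbr R' A' \ Y.image π).card + both R R' Y π A A')
    (hc : ∀ (A : Finset α) (A' : Finset α'), r + A.card + A'.card ≤
      Y.card + (nbr R A \ Y).card + (nbr R' A' \ Y.image π).card + both R R' Y π A A') :
    ∃ (F : α → β) (G : α' → β'), Function.Injective F ∧ Function.Injective G ∧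
      (∀ a, F a ∈ R a) ∧ (∀ a', G a' ∈ R' a') ∧
      (∀ y ∈ Y, (∃ a, F a = y) ↔ ∃ a', G a' = π y) ∧
      (Y.filter fun y => ∃ a, F a = y).card + r ≤ Y.card := by
  classical
  -- the budget
  have hr : Fintype.card α + r ≤ Fintype.card β := by
    have h := hc univ ∅
    have h1 : (nbr R' (∅ : Finset α') \ Y.image π).card = 0 := by simp [nbr]
    have h2 : both R R' Y π univ (∅ : Finset α') = 0 := by simp [both, nbr]
    have h3 : (nbr R (univ : Finset α) \ Y).card + Y.card ≤ Fintype.card β := by
      rw [← card_union_of_disjoint (disjoint_sdiff_self_left)]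
      exact card_le_univ _
    rw [h1, h2, card_univ, card_empty] at h
    omega
  obtain ⟨q, hq⟩ := Nat.exists_eq_add_of_le hr
  obtain ⟨E0, hE0i, hE0⟩ := (Finset.all_card_le_biUnion_card_iff_exists_injective
    (nb R R' Y π q)).1 (hall R R' hα hβ Y π hπ r q hq.symm ha hb hc)
  have hYc : Fintype.card {z : β' // z ∉ Y.image π} + Y.card = Fintype.card β' := by
    have e3 : (Y.image π).card = Y.card := card_image_of_injOn hπ
    have e4 : Fintype.card {z : β' // z ∉ Y.image π} = (univ \ Y.image π).card := by
      rw [Fintype.card_subtype]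
      congr 1
      ext z
      simp
    rw [e4, ← e3, card_sdiff_add_card_eq_card (subset_univ _), card_univ]
  have hcardLR : Fintype.card (Lf α Y π q) = Fintype.card (Rt β α' q) := by
    simp only [Fintype.card_sum, Fintype.card_fin, Fintype.card_coe]
    omega
  have hbij : Function.Bijective E0 :=
    (Fintype.bijective_iff_injective_and_card E0).2 ⟨hE0i, hcardLR⟩
  -- `F`
  have hF : ∀ a, ∃ b ∈ R a, E0 (Sum.inl a) = Sum.inl b := by
    intro a
    obtain ⟨b, hb, h⟩ := mem_image.1 (hE0 (Sum.inl a))
    exact ⟨b, hb, h.symm⟩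
  choose F hFR hFE using hF
  -- `G`
  have hG : ∀ a' : α', ∃ z ∈ R' a', ((∃ (y : β) (hy : y ∈ Y), π y = z ∧
      E0 (Sum.inr (Sum.inl ⟨y, hy⟩)) = Sum.inr (Sum.inl a')) ∨
      (∃ hz : z ∉ Y.image π, E0 (Sum.inr (Sum.inr (Sum.inl ⟨z, hz⟩))) = Sum.inr (Sum.inl a'))) := by
    intro a'
    obtain ⟨x, hx⟩ := hbij.2 (Sum.inr (Sum.inl a'))
    have hm := hE0 x
    rw [hx] at hm
    rcases x with a | ⟨y, hy⟩ | ⟨z, hz⟩ | i
    · simp [nb] at hm
    · simp [nb] at hm
      exact ⟨π y, hm, Or.inl ⟨y, hy, rfl, hx⟩⟩
    · simp [nb] at hm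
      exact ⟨z, hm, Or.inr ⟨hz, hx⟩⟩
    · simp [nb] at hm
  choose G hGR hGE using hG
  have hFi : Function.Injective F := by
    intro a b h
    have h1 := hFE a
    rw [h, ← hFE b] at h1
    exact Sum.inl_injective (hE0i h1)
  have hGi : Function.Injective G := by
    intro a b h
    rcases hGE a with ⟨y, hy, hyz, h1⟩ | ⟨hz, h1⟩
    · rcases hGE b with ⟨y', hy', hyz', h1'⟩ | ⟨hz', h1'⟩
      · have : y = y' := hπ hy hy' (by rw [hyz, hyz', h])
        subst this
        rw [h1] at h1'
        simpa using h1'
      · exfalso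
        apply hz'
        rw [← h, ← hyz]
        exact mem_image_of_mem _ hy
    · rcases hGE b with ⟨y', hy', hyz', h1'⟩ | ⟨hz', h1'⟩
      · exfalso
        apply hz
        rw [h, ← hyz']
        exact mem_image_of_mem _ hy'
      · have e : (⟨G a, hz⟩ : {z : β' // z ∉ Y.image π}) = ⟨G b, hz'⟩ := Subtype.ext h
        rw [e, h1'] at h1
        simpa using h1.symm
  -- what happens at `y ∈ Y`
  have hY1 : ∀ (y : β) (hy : y ∈ Y), (∃ a, F a = y) →
      ∃ a', E0 (Sum.inr (Sum.inl ⟨y, hy⟩)) = Sum.inr (Sum.inl a') := by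
    rintro y hy ⟨a, rfl⟩
    have hm := hE0 (Sum.inr (Sum.inl ⟨F a, hy⟩))
    rcases mem_insert.1 hm with h | h
    · exfalso
      rw [← hFE a] at h
      simpa using hE0i h
    · obtain ⟨a', _, h⟩ := mem_image.1 h
      exact ⟨a', h.symm⟩
  refine ⟨F, G, hFi, hGi, hFR, hGR, ?_, ?_⟩
  · intro y hy
    constructor
    · intro h
      obtain ⟨a', ha'⟩ := hY1 y hy h
      refine ⟨a', ?_⟩
      rcases hGE a' with ⟨y', hy', hyz, h1⟩ | ⟨hz, h1⟩
      · rw [← ha'] at h1
        have := hE0i h1
        simp only [Sum.inr.injEq, Sum.inl.injEq, Subtype.mk.injEq] at this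
        rw [← hyz, this]
      · rw [← ha'] at h1
        have := hE0i h1
        simp at this
    · rintro ⟨a', ha'⟩
      have h1 : E0 (Sum.inr (Sum.inl ⟨y, hy⟩)) = Sum.inr (Sum.inl a') := by
        rcases hGE a' with ⟨y', hy', hyz, h1⟩ | ⟨hz, h1⟩
        · have : y' = y := hπ hy' hy (by rw [hyz, ha'])
          subst this
          exact h1
        · exfalso
          apply hz
          rw [ha']
          exact mem_image_of_mem _ hy
      obtain ⟨x, hx⟩ := hbij.2 (Sum.inl y)
      have hm := hE0 x
      rw [hx] at hm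
      rcases x with a | ⟨y', hy'⟩ | ⟨z, hz⟩ | i
      · refine ⟨a, ?_⟩
        rw [hFE a] at hx
        exact Sum.inl_injective hx
      · exfalso
        simp [nb] at hm
        subst hm
        rw [h1] at hx
        simp at hx
      · simp [nb] at hm
      · exfalso
        simp [nb] at hm
        exact hm hy
  · -- counting
    set U := Y.filter fun y => ∃ a, F a = y with hU
    -- the left vertices sent to the right part of the right side
    have hinj : ∃ f : {z : β' // z ∉ Y.image π} ⊕ {y // y ∈ U} → α' ⊕ Fin q,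
        Function.Injective f := by
      have hf1 : ∀ z : {z : β' // z ∉ Y.image π}, ∃ w : α' ⊕ Fin q,
          E0 (Sum.inr (Sum.inr (Sum.inl z))) = Sum.inr w := by
        intro z
        have hm := hE0 (Sum.inr (Sum.inr (Sum.inl z)))
        rcases mem_union.1 hm with h | h
        · obtain ⟨a', _, h⟩ := mem_image.1 h
          exact ⟨_, h.symm⟩
        · obtain ⟨a', _, h⟩ := mem_image.1 h
          exact ⟨_, h.symm⟩
      have hf2 : ∀ y : {y // y ∈ U}, ∃ w : α' ⊕ Fin q,
          E0 (Sum.inr (Sum.inl ⟨y.1, (mem_filter.1 y.2).1⟩)) = Sum.inr w := by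
        intro y
        obtain ⟨a', h⟩ := hY1 y.1 (mem_filter.1 y.2).1 (mem_filter.1 y.2).2
        exact ⟨_, h⟩
      choose f1 hf1 using hf1
      choose f2 hf2 using hf2
      refine ⟨Sum.elim f1 f2, ?_⟩
      rintro (z | y) (z' | y') h
      · simp only [Sum.elim_inl] at h
        have h1 := hf1 z
        rw [h, ← hf1 z'] at h1
        have := hE0i h1
        simpa using this
      · simp only [Sum.elim_inl, Sum.elim_inr] at h
        have h1 := hf1 z
        rw [h, ← hf2 y'] at h1
        have := hE0i h1
        simp at this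
      · simp only [Sum.elim_inl, Sum.elim_inr] at h
        have h1 := hf2 y
        rw [h, ← hf1 z'] at h1
        have := hE0i h1
        simp at this
      · simp only [Sum.elim_inr] at h
        have h1 := hf2 y
        rw [h, ← hf2 y'] at h1
        have := hE0i h1
        simp only [Sum.inr.injEq, Sum.inl.injEq, Subtype.mk.injEq] at this
        congr 1
        exact Subtype.ext this
    obtain ⟨f, hf⟩ := hinj
    have h := Fintype.card_le_of_injective f hf
    simp only [Fintype.card_sum, Fintype.card_fin, Fintype.card_coe] at h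
    omega

theorem both_ge (R : α → Finset β) (R' : α' → Finset β') (Y : Finset β) (π : β → β')
    (hπ : Set.InjOn π (Y : Set β)) (A : Finset α) (A' : Finset α') :
    (nbr R A ∩ Y).card + (nbr R' A' ∩ Y.image π).card ≤ Y.card + both R R' Y π A A' := by
  classical
  have e1 : ((nbr R A ∩ Y).image π).card = (nbr R A ∩ Y).card :=
    card_image_of_injOn (hπ.mono (by intro y hy; simp at hy; exact hy.2))
  have e2 : ((nbr R A ∩ Y).image π ∪ (nbr R' A' ∩ Y.image π)).card ≤ Y.card := by
    rw [← card_image_of_injOn hπ]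
    apply card_le_card
    intro z hz
    rw [mem_union, mem_inter] at hz
    rcases hz with hz | hz
    · obtain ⟨y, hy, rfl⟩ := mem_image.1 hz
      exact mem_image_of_mem _ (mem_inter.1 hy).2
    · exact hz.2
  have e3 : ((nbr R A ∩ Y).image π ∩ (nbr R' A' ∩ Y.image π)).card ≤ both R R' Y π A A' := by
    unfold both
    rw [← card_image_of_injOn (s := Y.filter fun y => y ∈ nbr R A ∧ π y ∈ nbr R' A') (f := π)
      (hπ.mono (by intro y hy; simp at hy; exact hy.1))]
    apply card_le_card
    intro z hz
    rw [mem_inter, mem_inter] at hz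
    obtain ⟨y, hy, rfl⟩ := mem_image.1 hz.1
    rw [mem_inter] at hy
    exact mem_image_of_mem _ (mem_filter.2 ⟨hy.2, hy.1, hz.2.1⟩)
  have e4 := card_union_add_card_inter ((nbr R A ∩ Y).image π) (nbr R' A' ∩ Y.image π)
  omega

/-- Griggs step in the punctured form (KP). -/
theorem link_kp (R : α → Finset β) (R' : α' → Finset β')
    (hα : Fintype.card α = Fintype.card α') (π : β ≃ β')
    (h : ∀ (A : Finset α) (D : Finset β'),
      A.card ≤ (lwr R' D).card ∨ A.card + D.card ≤ (nbr R A).card + (lwr R' D).card) :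
    ∃ (F : α → β) (G : α' → β'), Function.Injective F ∧ Function.Injective G ∧
      (∀ a, F a ∈ R a) ∧ (∀ a', G a' ∈ R' a') ∧
      (∀ y, (∃ a, F a = y) ↔ ∃ a', G a' = π y) := by
  classical
  have hβ : Fintype.card β = Fintype.card β' := Fintype.card_congr π
  have main : ∀ (A : Finset α) (A' : Finset α'),
      A.card + A'.card ≤ Fintype.card α + both R R' univ π A A' := by
    intro A A'
    have hb := both_ge R R' univ π (π.injective.injOn) A A'
    have e0 : nbr R A ∩ univ = nbr R A := inter_univ _
    have e1 : nbr R' A' ∩ univ.image π = nbr R' A' := by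
      rw [image_univ_of_surjective π.surjective, inter_univ]
    rw [e0, e1, card_univ] at hb
    have hL : (lwr R' (univ \ nbr R' A')).card + A'.card ≤ Fintype.card α' := by
      rw [← card_union_of_disjoint]
      · exact card_le_univ _
      · rw [Finset.disjoint_left]
        intro a' ha' ha''
        obtain ⟨_, z, hz⟩ := mem_filter.1 ha'
        rw [mem_inter, mem_sdiff] at hz
        exact hz.2.2 (mem_biUnion.2 ⟨a', ha'', hz.1⟩)
    have hD : (univ \ nbr R' A').card + (nbr R' A').card = Fintype.card β' := by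
      rw [card_sdiff_add_card_eq_card (subset_univ _), card_univ]
    rcases h A (univ \ nbr R' A') with h | h <;> omega
  have hY1 : ∀ A : Finset α, (nbr R A \ (univ : Finset β)).card = 0 := by
    intro A
    rw [sdiff_eq_empty_iff_subset.2 (subset_univ _), card_empty]
  have hY2 : ∀ A' : Finset α', (nbr R' A' \ (univ : Finset β).image π).card = 0 := by
    intro A'
    rw [image_univ_of_surjective π.surjective, sdiff_eq_empty_iff_subset.2 (subset_univ _),
      card_empty]
  have hαβ : Fintype.card α ≤ Fintype.card β := by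
    have h1 := main univ univ
    have h2 : both R R' univ π univ (univ : Finset α') ≤ Fintype.card β := card_le_univ _
    rw [card_univ, card_univ] at h1
    omega
  obtain ⟨F, G, h1, h2, h3, h4, h5, _⟩ := link R R' hα hβ univ π (π.injective.injOn) 0
    (by intro A A'; have := main A A'; rw [hY1]; omega)
    (by intro A A'; have := main A A'; rw [hY2]; omega)
    (by intro A A'; have := main A A'; rw [hY1, hY2, card_univ]; omega)
  exact ⟨F, G, h1, h2, h3, h4, fun y => h5 y (mem_univ y)⟩

/-- The killing step: at least `r` of the `|Y|` links are not used. -/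
theorem link_kill (R : α → Finset β) (π : β ≃ β) (Y : Finset β) (r : ℕ)
    (hK : ∀ A A' : Finset α, A.card + A'.card ≤
      Fintype.card α + ((nbr R A).card + (nbr R A').card - Fintype.card β))
    (hr : ∀ A A' : Finset α, r + A.card + A'.card ≤
      max Y.card ((nbr R A).card + (nbr R A').card)) :
    ∃ (F : α → β) (G : α → β), Function.Injective F ∧ Function.Injective G ∧
      (∀ a, F a ∈ R a) ∧ (∀ a, G a ∈ R a) ∧
      (∀ y ∈ Y, (∃ a, F a = y) ↔ ∃ a, G a = π y) ∧
      (Y.filter fun y => ∃ a, F a = y).card + r ≤ Y.card := by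
  classical
  have hπ : Set.InjOn π (Y : Set β) := π.injective.injOn
  have hYc : (Y.image π).card = Y.card := card_image_of_injOn hπ
  have hs : ∀ N Z : Finset β, (N \ Z).card + (N ∩ Z).card = N.card := fun N Z =>
    card_sdiff_add_card_inter N Z
  have hu : ∀ N Z : Finset β, (N \ Z).card + Z.card ≤ Fintype.card β := by
    intro N Z
    rw [← card_union_of_disjoint (disjoint_sdiff_self_left)]
    exact card_le_univ _
  refine link R R rfl rfl Y π hπ r ?_ ?_ ?_
  · intro A A'
    have h1 := both_ge R R Y π hπ A A'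
    have h2 := hs (nbr R A) Y
    have h3 := hs (nbr R A') (Y.image π)
    have h4 := hu (nbr R A') (Y.image π)
    have h5 := hK A A'
    omega
  · intro A A'
    have h1 := both_ge R R Y π hπ A A'
    have h2 := hs (nbr R A) Y
    have h3 := hs (nbr R A') (Y.image π)
    have h4 := hu (nbr R A) Y
    have h5 := hK A A'
    omega
  · intro A A'
    have h1 := both_ge R R Y π hπ A A'
    have h2 := hs (nbr R A) Y
    have h3 := hs (nbr R A') (Y.image π)
    have h5 := hr A A'
    rcases le_total Y.card ((nbr R A).card + (nbr R A').card) with h6 | h6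
    · rw [max_eq_right h6] at h5
      omega
    · rw [max_eq_left h6] at h5
      omega

end Pool.Agent.Helper30.SN
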